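/-!
# The kernel checker: Taylor models in two parameters for the Thiele–Burrau flow
-/

set_option autoImplicit false

namespace Pool.Agent.Ecl.K

noncomputable section

/-! ## forcing -/

def fNat {β : Type} (n : Nat) (k : Nat → β) : β :=
  Nat.rec (motive := fun _ => β) (k 0) (fun m _ => k (Nat.succ m)) n

def fInt {β : Type} (z : Int) (k : Int → β) : β :=
  match z with
  | Int.ofNat n => fNat n fun n => k (Int.ofNat n)
  | Int.negSucc n => fNat n fun n => k (Int.negSucc n)

/-- sharing without forcing (the kernel caches the value of `n`) -/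
def sh {α β : Type} (n : α) (k : α → β) : β := k n

/-- forced integer operations -/
def iadd {β : Type} (a b : Int) (k : Int → β) : β := fInt (Int.add a b) k
def isub {β : Type} (a b : Int) (k : Int → β) : β := fInt (Int.sub a b) k
def imul {β : Type} (a b : Int) (k : Int → β) : β := fInt (Int.mul a b) k

def fList {β : Type} (l : List Nat) (k : List Nat → β) : β :=
  match l with
  | [] => k []
  | h :: t => k (h :: t)

/-! ## constants -/

/-- the unit of the fixed-point numbers is `2^(-60)` -/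
def n60 : Nat := Nat.pow 2 60
def n120 : Nat := Nat.pow 2 120
def i60 : Int := Int.ofNat n60

def rep (x s m : Nat) : Nat := x * ((2 ^ (s * m) - 1) / (2 ^ s - 1))

/-- digits `(i,j)`, `i + j ≤ n`, at position `s * (L * i + j)`, all with value `x` -/
def tri (x s L n : Nat) : Nat :=
  Nat.rec (motive := fun _ => Nat) x (fun n ih => rep x s (n + 2) + 2 ^ (s * L) * ih) n

/-- constants for the packed arithmetic (`T + 1` blocks; products have `2 T + 1` blocks) -/
structure Ctx where
  /-- mask of the admissible `(u,v)` digits (69 bits each), digit offset `2^68`, stride in `t` -/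
  M : Nat
  O : Nat
  SB : Nat
  /-- offset and mask of `T + 1` blocks, offset of derivatives -/
  OB : Nat
  MB : Nat
  OD : Nat
  /-- rounding offset, sign bits, low 146 bits of all digits of `2 T + 1` blocks -/
  AB : Nat
  SG : Nat
  LO : Nat
  /-- sign bits and low 146 bits of all digits of `T + 1` blocks -/
  SH : Nat
  LH : Nat
  /-- constants for the generation: `2^(160*145)`, `W1 - O`, rounding offsets -/
  W1 : Nat
  NO : Nat
  A60 : Nat
  A10 : Nat

def offD (O SB n : Nat) : Nat :=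
  Nat.rec (motive := fun _ => Nat) 0 (fun i ih => ih + (i + 1) * (O * 2 ^ (SB * i))) n

/-- the constants for `T = 16` and for `T = 0` -/
def mkCtx {β : Type} (K : Ctx → Ctx → β) : β :=
  fNat (2 ^ (160 * 145)) fun W1 =>
  fNat (tri (2 ^ 69 - 1) 160 17 8) fun M =>
  fNat (tri (2 ^ 68) 160 17 8) fun O =>
  fNat (Nat.sub W1 O) fun NO =>
  fNat (rep (2 ^ 159 + 2 ^ 128 + 2 ^ 59) 160 145) fun A60 =>
  fNat (rep (2 ^ 159 + 2 ^ 78 + 2 ^ 9) 160 145) fun A10 =>
  fNat (160 * 289) fun SB =>
  fNat (rep O SB 17) fun OB =>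
  fNat (rep M SB 17) fun MB =>
  fNat (offD O SB 16) fun OD =>
  fNat (rep (2 ^ 159 + 2 ^ 128 + 2 ^ 59) 160 (33 * 289)) fun AB =>
  fNat (rep (2 ^ 159) 160 (33 * 289)) fun SG =>
  fNat (rep (2 ^ 146 - 1) 160 (33 * 289)) fun LO =>
  fNat (rep (2 ^ 159) 160 (17 * 289)) fun SH =>
  fNat (rep (2 ^ 146 - 1) 160 (17 * 289)) fun LH =>
  fNat (rep (2 ^ 159 + 2 ^ 128 + 2 ^ 59) 160 289) fun AB0 =>
  fNat (rep (2 ^ 159) 160 289) fun SG0 =>
  fNat (rep (2 ^ 146 - 1) 160 289) fun LO0 =>
  K ⟨M, O, SB, OB, MB, OD, AB, SG, LO, SH, LH, W1, NO, A60, A10⟩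
    ⟨M, O, SB, O, M, 0, AB0, SG0, LO0, SG0, LO0, W1, NO, A60, A10⟩

/-! ## generation of the Taylor coefficients (no soundness needed) -/

def rt (A M sh z : Nat) : Nat := Nat.land (Nat.shiftRight (Nat.add z A) sh) M

def rev (l : List Nat) : List Nat :=
  List.rec (motive := fun _ => List Nat → List Nat) (fun acc => acc)
    (fun h _ ih acc => ih (h :: acc)) l []

def dot (l m : List Nat) : Nat :=
  List.rec (motive := fun _ => List Nat → Nat → Nat) (fun _ acc => acc)
    (fun h _ ih m acc => List.rec (motive := fun _ => Nat) acc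
      (fun h2 t2 _ => fNat (Nat.add acc (Nat.mul h h2)) (fun acc' => ih t2 acc')) m) l m 0

structure G where
  c : List Nat
  s : List Nat
  k : List Nat
  g : List Nat
  p : List Nat
  q : List Nat
  cc : List Nat
  kk : List Nat
  cs : List Nat
  kg : List Nat
  j : List Nat
  P : List Nat
  Q : List Nat

section
variable (C : Ctx)
def r60 (z : Nat) : Nat := rt C.A60 C.M 60 z
def res (y : Nat) : Nat := Nat.add y C.NO
def neg (x : Nat) : Nat := Nat.sub (Nat.mul 2 C.W1) x

def gstep {β : Type} (HT n : Nat) (S : G) (K : G → β) : β :=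
  fList (rev S.c) fun vc => fList (rev S.k) fun vk =>
  fNat (res C (r60 C (dot S.c vc))) fun cc =>
  fNat (res C (r60 C (dot S.k vk))) fun kk =>
  fNat (res C (r60 C (dot S.s vc))) fun cs =>
  fNat (res C (r60 C (dot S.g vk))) fun kg =>
  fNat (Nat.add cc (neg C kk)) fun j =>
  fNat (res C (r60 C (Nat.mul HT (List.headD S.p 0)))) fun P =>
  fNat (res C (r60 C (Nat.mul HT (List.headD S.q 0)))) fun Q =>
  fList (rev (cc :: S.cc)) fun vcc => fList (rev (kk :: S.kk)) fun vkk =>
  fNat (res C (r60 C (dot (cs :: S.cs) vcc))) fun cscc =>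
  fNat (res C (r60 C (dot (kg :: S.kg) vkk))) fun kgkk =>
  fList (rev (P :: S.P)) fun vP => fList (rev (Q :: S.Q)) fun vQ =>
  fNat (Nat.div (Nat.pow 2 60) 80) fun rc80 =>
  fNat (Nat.div (Nat.pow 2 60) (Nat.succ n)) fun rc =>
  fNat (Nat.div (Nat.pow 2 59) (Nat.succ n)) fun rc2 =>
  fNat (res C (r60 C (Nat.mul rc80 (Nat.add (Nat.mul 10 cscc)
    (Nat.add (Nat.mul 40 (List.headD S.s 0)) (Nat.mul 61 (neg C cs))))))) fun f1 =>
  fNat (res C (r60 C (Nat.mul rc80 (Nat.add (Nat.mul 10 kgkk)
    (Nat.mul 61 (neg C kg)))))) fun g1 =>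
  fNat (res C (r60 C (Nat.mul rc (res C (r60 C (dot S.s vP)))))) fun c' =>
  fNat (res C (r60 C (Nat.mul rc (res C (r60 C (dot S.c vP)))))) fun s' =>
  fNat (res C (r60 C (Nat.mul rc (neg C (res C (r60 C (dot S.g vQ))))))) fun k' =>
  fNat (res C (r60 C (Nat.mul rc (res C (r60 C (dot S.k vQ)))))) fun g' =>
  fNat (res C (r60 C (Nat.mul rc2 (res C (r60 C (Nat.add (dot (j :: S.j) vQ)
    (Nat.mul 2 (Nat.mul HT f1)))))))) fun p' =>
  fNat (res C (r60 C (Nat.mul rc2 (neg C (res C (r60 C (Nat.add (dot (j :: S.j) vP)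
    (Nat.mul 2 (Nat.mul HT (neg C g1)))))))))) fun q' =>
  K ⟨c' :: S.c, s' :: S.s, k' :: S.k, g' :: S.g, p' :: S.p, q' :: S.q,
    cc :: S.cc, kk :: S.kk, cs :: S.cs, kg :: S.kg, j :: S.j, P :: S.P, Q :: S.Q⟩

def gen {β : Type} (HT T : Nat) (S : G) (K : G → β) : β :=
  Nat.rec (motive := fun _ => Nat → G → β) (fun _ S => K S)
    (fun _ ih n S => gstep C HT n S (fun S' => fNat (Nat.succ n) fun n' => ih n' S')) T 0 S
end

/-! ## verified packed arithmetic -/

/-- masked digit form from a residue -/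
def ym (C : Ctx) (r : Nat) : Nat := Nat.land (Nat.sub r C.NO) C.M

def packY (C : Ctx) (l : List Nat) : Nat :=
  List.rec (motive := fun _ => Nat → Nat) (fun acc => acc)
    (fun r _ ih acc => fNat (Nat.add (Nat.shiftLeft acc C.SB) (ym C r)) ih) l 0

def packD (C : Ctx) (l : List Nat) (T : Nat) : Nat :=
  List.rec (motive := fun _ => Nat → Nat → Nat) (fun _ acc => acc)
    (fun r _ ih i acc => Nat.rec (motive := fun _ => Nat) acc
      (fun i' _ => fNat (Nat.add (Nat.shiftLeft acc C.SB) (Nat.mul (Nat.succ i') (ym C r)))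
        (fun a => ih i' a)) i) l T 0

/-- sum of the masked digit forms -/
def sumY (C : Ctx) (l : List Nat) : Nat :=
  List.rec (motive := fun _ => Nat → Nat) (fun acc => acc)
    (fun r _ ih acc => fNat (Nat.add acc (ym C r)) ih) l 0

/-- the positive digits of `x - SG` -/
def posD (SG x : Nat) : Nat :=
  Nat.land x (Nat.sub (Nat.land x SG) (Nat.shiftRight (Nat.land x SG) 159))
/-- the negative digits of `x - SG`, given the positive ones -/
def negD (SG x P : Nat) : Nat := Nat.sub (Nat.add P SG) x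

def l1chk (SG LO x P M : Nat) : Bool :=
  Nat.beq (Nat.add x M) (Nat.add P SG) && (Nat.beq (Nat.land P LO) P && Nat.beq (Nat.land M LO) M)
def l1sum (P M : Nat) : Nat :=
  Nat.add (Nat.mod P (Nat.pred (Nat.pow 2 160))) (Nat.mod M (Nat.pred (Nat.pow 2 160)))

/-- `ℓ¹` norm of a packed integer all of whose digits have absolute value `< 2^146` -/
def l1g {β : Type} (SG LO : Nat) (fail : β) (R : Int) (k : Nat → β) : β :=
  sh (Int.toNat (Int.add R (Int.ofNat SG))) fun x =>
  sh (posD SG x) fun P => sh (negD SG x P) fun M =>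
  cond (l1chk SG LO x P M) (fNat (l1sum P M) k) fail

/-- at most `2 T + 1` blocks -/
def l1 {β : Type} (C : Ctx) (fail : β) (R : Int) (k : Nat → β) : β := l1g C.SG C.LO fail R k
/-- at most `T + 1` blocks -/
def l1h {β : Type} (C : Ctx) (fail : β) (R : Int) (k : Nat → β) : β := l1g C.SH C.LH fail R k

/-- a packed polynomial, an error bound and a norm bound (all in units `2^(-60)`) -/
structure TM where
  N : Int
  e : Nat
  nr : Nat

/-- product of Taylor models, truncated and rounded -/
def mulTM {β : Type} (C : Ctx) (fail : β) (A B : TM) (k : TM → β) : β :=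
  sh (Int.mul A.N B.N) fun N =>
  sh (Nat.land (Nat.shiftRight (Int.toNat (Int.add N (Int.ofNat C.AB))) 60) C.MB) fun Y =>
  isub (Int.ofNat Y) (Int.ofNat C.OB) fun Q =>
  l1 C fail (Int.sub N (Int.mul Q (Int.ofNat n60))) fun r =>
  fNat (Nat.succ (Nat.div (Nat.mul A.nr B.nr) n60)) fun nr0 =>
  fNat (Nat.succ (Nat.shiftRight (Nat.add r (Nat.add (Nat.mul A.nr B.e)
    (Nat.add (Nat.mul B.nr A.e) (Nat.mul A.e B.e)))) 60)) fun e =>
  fNat (Nat.add nr0 e) fun nr => k ⟨Q, e, nr⟩

/-- full polynomial from a reversed list of 17 residues; the last entry must be `y0` -/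
def mkTM {β : Type} (C : Ctx) (fail : β) (l : List Nat) (k : TM → β) : β :=
  fNat (packY C l) fun Y => isub (Int.ofNat Y) (Int.ofNat C.OB) fun N =>
  l1h C fail N fun nr => k ⟨N, 0, nr⟩

/-- a `(u,v)` polynomial given in digit form -/
def uvTM {β : Type} (C : Ctx) (fail : β) (y : Nat) (k : TM → β) : β :=
  isub (Int.ofNat y) (Int.ofNat C.O) fun N => l1h C fail N fun nr => k ⟨N, 0, nr⟩

/-- derivative in `t` -/
def dTM {β : Type} (C : Ctx) (l : List Nat) (k : Int → β) : β :=
  fNat (packD C l 16) fun Y => isub (Int.ofNat Y) (Int.ofNat C.OD) k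

/-- constant digit of a digit form -/
def cd (y : Nat) : Int := Int.sub (Int.ofNat (Nat.mod y (Nat.pow 2 160))) (Int.ofNat (Nat.pow 2 68))

/-- lower and upper bound of a polynomial from its constant digit and norm -/
def lo (c0 : Int) (nr : Nat) : Int := c0 + (Int.natAbs c0 : Int) - nr
def hi (c0 : Int) (nr : Nat) : Int := c0 - (Int.natAbs c0 : Int) + nr

/-! ## one step -/

/-- state: digit forms of the six polynomials, weighted error `E`, relation errors, weight -/
structure Sta where
  c : Nat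
  s : Nat
  k : Nat
  g : Nat
  p : Nat
  q : Nat
  E : Nat
  eh : Nat
  et : Nat
  lam : Nat

/-- bounds valid during a step -/
structure Out where
  slo : Int
  glo : Int
  klo : Int
  khi : Int
  plo : Int
  phi : Int
  qlo : Int
  qhi : Int
  /-- bound of `E`, `eh`, `et` during the step, error of `ξ, η` -/
  E : Nat
  eh : Nat
  et : Nat
  dX : Nat
  /-- norms -/
  sn : Nat
  gn : Nat
  pn : Nat
  qn : Nat
  hn : Nat
  Cb : Nat
  /-- lower bound of the duration, norms of the `t`-derivatives -/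
  hlo : Int
  dc : Nat
  dk : Nat
  dp : Nat
  dq : Nat

/-- last entry -/
def lastY (l : List Nat) : Nat :=
  List.rec (motive := fun _ => Nat → Nat) (fun x => x) (fun h _ ih _ => ih h) l 0

/-- checks of a coefficient list: length 17, value at `t = 0`; continues with the digit form of
the value at `t = 1` -/
def endY {β : Type} (C : Ctx) (fail : β) (l : List Nat) (y0 : Nat) (k : Nat → β) : β :=
  fNat (sumY C l) fun z => fNat (Nat.sub z (Nat.mul 16 C.O)) fun y1 =>
  cond (Nat.beq (List.length l) 17 && (Nat.beq (ym C (lastY l)) y0 &&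
    (Nat.beq (Nat.land y1 C.M) y1 && Nat.beq (Nat.add y1 (Nat.mul 16 C.O)) z))) (k y1) fail

def step {β : Type} (C C0 : Ctx) (fail : β) (S : Sta) (th m lam : Nat) (K : Out → Sta → β) : β :=
  fNat (rt C.A10 C.M 10 (Nat.mul m (res C th))) fun yH =>
  fNat (res C yH) fun HT =>
  gen C HT 16 ⟨[res C S.c], [res C S.s], [res C S.k], [res C S.g], [res C S.p], [res C S.q],
    [], [], [], [], [], [], []⟩ fun L =>
  endY C fail L.c S.c fun c1 => endY C fail L.s S.s fun s1 => endY C fail L.k S.k fun k1 =>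
  endY C fail L.g S.g fun g1 => endY C fail L.p S.p fun p1 => endY C fail L.q S.q fun q1 =>
  mkTM C fail L.c fun c => mkTM C fail L.s fun s => mkTM C fail L.k fun kk =>
  mkTM C fail L.g fun g => mkTM C fail L.p fun p => mkTM C fail L.q fun q =>
  uvTM C0 fail yH fun h =>
  mulTM C fail c c fun CC => mulTM C fail kk kk fun KK => mulTM C fail c s fun CS =>
  mulTM C fail kk g fun KG => mulTM C fail CS CC fun CSCC => mulTM C fail KG KK fun KGKK =>
  mulTM C fail h p fun P => mulTM C fail h q fun Q =>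
  mulTM C fail s P fun sP => mulTM C fail c P fun cP => mulTM C fail g Q fun gQ =>
  mulTM C fail kk Q fun kQ =>
  isub CC.N KK.N fun jN => fNat (Nat.add CC.nr KK.nr) fun jn =>
  fNat (Nat.add CC.e KK.e) fun je =>
  mulTM C fail ⟨jN, je, jn⟩ Q fun JQ => mulTM C fail ⟨jN, je, jn⟩ P fun JP =>
  imul 10 CSCC.N fun f1 => imul 61 CS.N fun f2 => imul 40 s.N fun f3 =>
  isub f1 f2 fun f4 => iadd f4 f3 fun fN =>
  imul 10 KGKK.N fun g1' => imul 61 KG.N fun g2 => isub g1' g2 fun gN =>
  dTM C L.c fun dc => dTM C L.s fun ds => dTM C L.k fun dk =>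
  dTM C L.g fun dg => dTM C L.p fun dp => dTM C L.q fun dq =>
  l1h C fail dc fun ndc => l1h C fail dk fun ndk => l1h C fail dp fun ndp => l1h C fail dq fun ndq =>
  isub dc sP.N fun Rc => l1h C fail Rc fun rc => isub ds cP.N fun Rs => l1h C fail Rs fun rs =>
  iadd dk gQ.N fun Rk => l1h C fail Rk fun rk => isub dg kQ.N fun Rg => l1h C fail Rg fun rg =>
  imul (Int.ofNat (Nat.mul 80 n60)) dp fun dp80 => imul (Int.ofNat (Nat.mul 40 n60)) JQ.N fun JQ40 =>
  imul h.N fN fun hf => isub dp80 JQ40 fun Rp1 => isub Rp1 hf fun Rp => l1h C fail Rp fun rp80 =>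
  imul (Int.ofNat (Nat.mul 80 n60)) dq fun dq80 => imul (Int.ofNat (Nat.mul 40 n60)) JP.N fun JP40 =>
  imul h.N gN fun hg => iadd dq80 JP40 fun Rq1 => isub Rq1 hg fun Rq => l1h C fail Rq fun rq80 =>
  fNat (Nat.add (Nat.mul 61 n120) (Nat.mul (Nat.mul 80 (Nat.mul lam lam)) (Nat.pow 2 112))) fun cst =>
  imul 40 CC.N fun a1 => isub a1 (Int.ofNat (Nat.mul 152 n60)) fun a2 => imul CC.N a2 fun a3 =>
  imul q.N CS.N fun a4 => imul 80 a4 fun a5 => imul (Int.ofNat (Nat.mul 40 n60)) c.N fun a6 =>
  iadd a3 a5 fun a7 => iadd a7 a6 fun a8 => iadd a8 (Int.ofNat cst) fun S11 =>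
  l1 C fail S11 fun n11 =>
  imul 40 KK.N fun b1 => isub b1 (Int.ofNat (Nat.mul 152 n60)) fun b2 => imul KK.N b2 fun b3 =>
  imul p.N KG.N fun b4 => imul 80 b4 fun b5 => isub b3 b5 fun b6 => iadd b6 (Int.ofNat cst) fun S22 =>
  l1 C fail S22 fun n22 =>
  imul q.N KG.N fun S12 => l1 C fail S12 fun n12 => imul p.N CS.N fun S21 => l1 C fail S21 fun n21 =>
  -- relation errors
  fNat (h.nr * p.nr / n60 + 1) fun x =>
  fNat ((S.eh + rc + sP.e + rs + cP.e) * (n120 + x * n60 + x * x) / n120 + 1) fun eh =>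
  fNat (S.et + rk + gQ.e + rg + kQ.e + 1) fun et =>
  fNat (eh + et) fun er =>
  fNat ((c.nr + eh) * 17 / Nat.pow 2 64 + 1) fun Cb =>
  fNat (p.nr / n60 + 2) fun Pb => fNat (q.nr / n60 + 2) fun Qb =>
  -- defect
  fNat ((rp80 + n60 * (40 * JQ.e) + h.nr * (10 * CSCC.e + 61 * CS.e)) / (80 * n60) +
    ((rq80 + n60 * (40 * JP.e) + h.nr * (10 * KGKK.e + 61 * KG.e)) / (80 * n60)) +
    h.nr * er * ((Cb + 1) * (Pb + Qb) + Cb * Cb * Cb + 2 * Cb + 3) / n60 + 4) fun rho =>
  fNat (cond (Nat.ble lam S.lam) S.E (S.E * lam / S.lam + 1)) fun E0 =>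
  fNat (8 * (E0 + rho)) fun Bm =>
  -- logarithmic norm
  fNat (Nat.max (n11 + 80 * q.nr * CS.e + CC.e * (80 * CC.nr + 40 * CC.e + 152 * n60))
      (n22 + 80 * p.nr * KG.e + KK.e * (80 * KK.nr + 40 * KK.e + 152 * n60)) +
    80 * Nat.max (n12 + q.nr * KG.e) (n21 + p.nr * CS.e)) fun M80 =>
  fNat (h.nr * M80 / (10 * lam * n120) +
    h.nr * (Cb * Cb * (Pb + Qb + 2) + Cb * Cb * Cb * Cb) * Bm * 256 / (lam * lam * n60) +
    h.nr * er * (2 * Cb * Cb * Cb + 4 * Cb + 1 + (Pb + Qb) * (2 * Cb + 1)) * 16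
      / (lam * n60) + 3) fun mu =>
  fNat (mu / 4 + 1) fun y =>
  fNat (n60 + y + y * y / n60 + 1) fun F =>
  fNat ((E0 + rho) * (F * F * F * F) / Nat.pow 2 240 + 1) fun E1 =>
  fNat (E1 * 16 / lam + 1) fun dX =>
  cond (Nat.ble 1 lam && (Nat.ble x (n60) && (Nat.ble y (Nat.pow 2 58) && (Nat.ble E1 Bm &&
    (Nat.ble (Bm * 16) (lam * Nat.pow 2 55) && (Nat.ble Bm (n60) && (Nat.ble er (Nat.pow 2 50) &&
    (Nat.ble Cb (Nat.pow 2 18) && (Nat.ble Pb (Nat.pow 2 18) && (Nat.ble Qb (Nat.pow 2 18) &&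
    (Nat.ble lam (Nat.pow 2 18) && decide (0 < lo (cd yH) h.nr))))))))))))
    (K ⟨lo (cd S.s) s.nr, lo (cd S.g) g.nr, lo (cd S.k) kk.nr, hi (cd S.k) kk.nr,
        lo (cd S.p) p.nr, hi (cd S.p) p.nr, lo (cd S.q) q.nr, hi (cd S.q) q.nr,
        E1, eh, et, dX, s.nr, g.nr, p.nr, q.nr, h.nr, Cb, lo (cd yH) h.nr, ndc, ndk, ndp, ndq⟩
      ⟨c1, s1, k1, g1, p1, q1, E1, eh, et, lam⟩) fail

/-! ## initial state -/

/-- row of digits -/
def packR (l : List Nat) : Nat :=
  List.rec (motive := fun _ => Nat) 0 (fun x _ ih => Nat.add x (Nat.mul (Nat.pow 2 160) ih)) l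

/-- rows of digits, stride 17 -/
def packRR (l : List (List Nat)) : Nat :=
  List.rec (motive := fun _ => Nat) 0
    (fun r _ ih => Nat.add (packR r) (Nat.mul (Nat.pow 2 2720) ih)) l

/-- digit form of the affine polynomial `x0 + x1 u + x2 v` -/
def affY (C : Ctx) (x0 x1 x2 : Int) : Nat :=
  fInt x0 fun x0 => fInt x1 fun x1 => fInt x2 fun x2 =>
  imul x1 (Int.ofNat (Nat.pow 2 2720)) fun a => imul x2 (Int.ofNat (Nat.pow 2 160)) fun b =>
  iadd x0 a fun c => iadd c b fun d => iadd (Int.ofNat C.O) d fun e => Int.toNat e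

/-- `sqrt` check: `A² = 1 + sg X²`-type relations; returns the error of `A` -/
def relErr {β : Type} (C : Ctx) (fail : β) (A : TM) (aY : Nat) (R : Int) (e : Nat)
    (k : Nat → β) : β :=
  l1 C fail R fun r => fNat (r + e) fun r =>
  fInt (lo (cd aY) A.nr) fun al =>
  cond (decide (0 < al) && decide (2 * i60 * (r : Int) ≤ al * al))
    (fNat (r * n60 / Int.toNat al + 1) k) fail

/-- energy check; returns the initial state -/
def energy {β : Type} (C : Ctx) (fail : β) (c s kk g p q : Nat) (eh et : Nat)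
    (nY : Nat) (K : Sta → β) : β :=
  cond (Nat.beq (Nat.land c C.M) c && (Nat.beq (Nat.land s C.M) s && (Nat.beq (Nat.land kk C.M) kk &&
    (Nat.beq (Nat.land g C.M) g && (Nat.beq (Nat.land p C.M) p && Nat.beq (Nat.land q C.M) q)))))
  (uvTM C fail c fun tc => uvTM C fail s fun ts => uvTM C fail kk fun tk => uvTM C fail g fun tg =>
   uvTM C fail p fun tp => uvTM C fail q fun tq => uvTM C fail nY fun tn =>
   mulTM C fail tc tc fun CC => mulTM C fail ts ts fun SS => mulTM C fail tk tk fun KK =>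
   mulTM C fail tg tg fun GG => mulTM C fail tp tp fun PP => mulTM C fail tq tq fun QQ =>
   mulTM C fail SS CC fun SC => mulTM C fail GG KK fun GK =>
   iadd PP.N QQ.N fun a1 => imul 80 a1 fun a2 => iadd SC.N GK.N fun a3 => imul 5 a3 fun a4 =>
   imul 80 tc.N fun a5 => isub CC.N KK.N fun a6 => imul 56 a6 fun a7 => isub a2 a4 fun a8 =>
   isub a8 a5 fun a9 => iadd a9 a7 fun a10 => l1 C fail a10 fun r =>
   fNat ((tc.nr + eh) * 17 / Nat.pow 2 64 + 1) fun Cb =>
   fNat (r + 80 * (PP.e + QQ.e) + 5 * (SC.e + GK.e) + 56 * (CC.e + KK.e) +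
     10 * (Cb * Cb * Cb) * eh + 11 * et + 1) fun R =>
   fInt (lo (cd nY) tn.nr) fun nl =>
   cond (decide (0 < nl) && (decide (2 * i60 * (R : Int) ≤ 80 * (nl * nl)) &&
       Nat.ble (eh + et) (Nat.pow 2 40)))
     (fNat (R * n60 / (80 * Int.toNat nl) + 2) fun E =>
       K ⟨c, s, kk, g, p, q, E, eh, et, 16⟩) fail) fail

/-- fits into a digit -/
def small (x : Int) : Bool := Nat.ble (Int.natAbs x) (Nat.pow 2 67)
/-- fits into 50 bits -/
def small2 (x : Int) : Bool := Nat.ble (Int.natAbs x) (Nat.pow 2 50)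

/-- initial state on a section. `src`: 0 = `ξ = 0`, 1 = `η = π`, 2 = `η = 0`,
3 = `η = arccos κ`, 4 = ejection. -/
def init {β : Type} (C : Ctx) (fail : β) (src : Nat) (kap gam : Int) (x0 x1 x2 y0 y1 y2 : Int)
    (A N : List (List Nat)) (K : Sta → β) : β :=
  fNat (affY C x0 x1 x2) fun X => fNat (affY C y0 y1 y2) fun Y =>
  fNat (packRR A) fun A => fNat (packRR N) fun N =>
  fNat (affY C i60 0 0) fun one => fNat (affY C (-i60) 0 0) fun mone =>
  fNat C.O fun nul =>
  cond (small x0 && (small x1 && (small x2 && (small y0 && (small y1 && (small y2 &&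
    (small kap && (small gam && (Nat.beq (Nat.land A C.M) A &&
    Nat.beq (Nat.land N C.M) N)))))))))
  (uvTM C fail X fun tX => uvTM C fail A fun tA =>
   mulTM C fail tX tX fun XX => mulTM C fail tA tA fun AA =>
   cond (Nat.beq src 0 || decide (0 < lo (cd X) tX.nr))
   (match src with
   | 0 => iadd AA.N XX.N fun a => isub a i60 fun a => relErr C fail tA A a (AA.e + XX.e) fun et =>
       energy C fail one nul X A N Y 0 et N K
   | 1 => isub AA.N XX.N fun a => iadd a i60 fun a => relErr C fail tA A a (AA.e + XX.e) fun eh =>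
       fNat (Nat.sub (Nat.mul 2 C.O) N) fun mN => energy C fail X A mone nul Y mN eh 0 N K
   | 2 => isub AA.N XX.N fun a => iadd a i60 fun a => relErr C fail tA A a (AA.e + XX.e) fun eh =>
       energy C fail X A one nul Y N eh 0 N K
   | 3 => isub AA.N XX.N fun a => iadd a i60 fun a => relErr C fail tA A a (AA.e + XX.e) fun eh =>
       fNat (affY C kap 0 0) fun yk => fNat (affY C gam 0 0) fun yg =>
       fNat (Int.natAbs (kap * kap + gam * gam - i60 * i60)) fun r =>
       cond (decide (0 < gam) && decide ((r : Int) * 2 ≤ gam * gam))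
         (fNat (r / Int.toNat gam + 1) fun et =>
          fNat (Nat.sub (Nat.mul 2 C.O) N) fun mN => energy C fail X A yk yg Y mN eh et N K) fail
   | _ => energy C fail one nul one nul X N 0 0 N K) fail) fail

/-! ## inside checks and exits -/

/-- error of `cosh ξ`, `sinh ξ` and of `cos η`, `sin η` during a step -/
def Out.dH (o : Out) : Nat := o.eh + o.Cb * o.dX
def Out.dT (o : Out) : Nat := o.et + o.dX

/-- `ξ > 0` during the step -/
def xiPos (o : Out) : Bool := decide ((Out.dH o : Int) < o.slo)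
/-- `sin η > 0` during the step -/
def snPos (o : Out) : Bool := decide ((Out.dT o : Int) < o.glo)
def pPos (o : Out) : Bool := decide ((o.E : Int) < o.plo)
def pNeg (o : Out) : Bool := decide (o.phi + (o.E : Int) < 0)
def qPos (o : Out) : Bool := decide ((o.E : Int) < o.qlo)
def qNeg (o : Out) : Bool := decide (o.qhi + (o.E : Int) < 0)
/-- `η` moves by less than `3/2` during the step -/
def qMov (o : Out) : Bool := Nat.ble (o.hn * (o.qn + o.E)) (3 * Nat.pow 2 119)

/-- inside check of the first step -/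
def inFirst (src : Nat) (o : Out) : Bool :=
  match src with
  | 0 => pPos o && snPos o
  | 1 => xiPos o && (qNeg o && qMov o)
  | 2 => xiPos o && (qPos o && qMov o)
  | 3 => xiPos o && snPos o
  | _ => pPos o && (qPos o && qMov o)

/-- inside check of the middle steps -/
def inMid (o : Out) : Bool := xiPos o && snPos o

/-- inside check of the last step -/
def inLast (tgt : Nat) (o : Out) : Bool :=
  match tgt with
  | 0 => pNeg o && snPos o
  | 1 => xiPos o && (qNeg o && qMov o)
  | 2 => xiPos o && (qPos o && qMov o)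
  | 3 => xiPos o && (snPos o && qNeg o)
  | _ => pNeg o && (qPos o && (Nat.ble (o.sn + Out.dH o) (Nat.pow 2 59) &&
      (Nat.ble (o.gn + Out.dT o) (7 * Nat.pow 2 56) && decide (o.khi + (Out.dT o : Int) < 0))))

/-- before the last step the section `cos η = κ'`, `q < 0` is not met -/
def noSec (tgt : Nat) (kap : Int) (o : Out) : Bool :=
  match tgt with
  | 3 => decide (kap + (Out.dT o : Int) < o.klo) || (decide (o.khi + (Out.dT o : Int) < kap) || qPos o)
  | _ => true

/-- bound of the error of `cos η`, `sin η` in a state -/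
def Sta.dT (S : Sta) : Nat := S.et + (S.E * 16 / S.lam + 1)

/-- final data: packed coordinates, constant digits, errors -/
structure Fnl where
  X : Int
  Y : Int
  x0 : Int
  y0 : Int
  eX : Nat
  eY : Nat
  /-- bounds of `σ` for the collision target: lower, upper -/
  sl : Int
  sh : Int

def finish {β : Type} (C : Ctx) (fail : β) (tgt : Nat) (kap : Int) (S0 : Sta) (o : Out) (S : Sta)
    (K : Fnl → β) : β :=
  uvTM C fail S.c fun tc => uvTM C fail S.s fun ts => uvTM C fail S.k fun tk =>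
  uvTM C fail S.g fun tg => uvTM C fail S.p fun tp => uvTM C fail S.q fun tq =>
  uvTM C fail S0.k fun tk0 =>
  fNat (Out.dH o) fun dH => fNat (Out.dT o) fun dT =>
  fNat (Int.toNat o.hlo) fun hl =>
  fInt (lo (cd S.s) ts.nr) fun sl => fInt (hi (cd S.s) ts.nr) fun sh =>
  fInt (lo (cd S.g) tg.nr) fun gl => fInt (hi (cd S.g) tg.nr) fun gh =>
  match tgt with
  | 0 => fInt (-(o.phi + o.E)) fun m =>
      cond (decide (sh + dH < 0) && decide (0 < m))
        (fNat (Int.toNat (-sl + dH) * n60 / Int.toNat m + 1) fun dt =>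
          K ⟨-tk.N, -tq.N, -cd S.k, -cd S.q, dT + dt * o.dk / hl + 1,
            o.E + dt * o.dq / hl + 1, 0, 0⟩) fail
  | 3 => fInt (-(o.qhi + o.E)) fun m => fInt (o.glo - dT) fun gm =>
      fInt (hi (cd S0.k) tk0.nr) fun k0h => fInt (lo (cd S.k) tk.nr) fun kl =>
      fInt (hi (cd S.k) tk.nr) fun kh =>
      cond (decide (k0h + (Sta.dT S0 : Int) < kap) && (decide (kap < kl - dT) && (decide (0 < m) && decide (0 < gm))))
        (fNat (Int.toNat (kh + dT - kap) * n120 / (Int.toNat m * Int.toNat gm) + 1) fun dt =>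
          K ⟨tc.N, tp.N, cd S.c, cd S.p, dH + dt * o.dc / hl + 1,
            o.E + dt * o.dp / hl + 1, 0, 0⟩) fail
  | 4 => fInt (-(o.phi + o.E)) fun m1 => fInt (o.qlo - o.E) fun m2 =>
      fNat (ts.nr + dH) fun a => fNat (tg.nr + dT) fun b =>
      fNat ((a * a * a + 2 * (b * b * b)) / (6 * n120) + 1) fun cub =>
      cond (decide (sh + gh + dH + dT + cub < 0) && (decide (0 < m1) && decide (0 < m2)))
        (fNat (Int.toNat (-sl - gl + dH + dT + cub) * n60 / Int.toNat (m1 + m2) + 1) fun dt =>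
          K ⟨0, 0, 0, 0, 0, 0, sl - dH, 9 * (sh + dH) + 10 * (dt * (o.pn + o.E) / n60 + 1)⟩) fail
  | _ => fInt (cond (Nat.beq tgt 1) (-(o.qhi + o.E)) (o.qlo - o.E)) fun m =>
      cond (decide (gh + dT < 0) && decide (0 < m))
        (fNat (2 * Int.toNat (-gl + dT) * n60 / Int.toNat m + 1) fun dt =>
          K ⟨tc.N, tp.N, cd S.c, cd S.p, dH + dt * o.dc / hl + 1,
            o.E + dt * o.dp / hl + 1, 0, 0⟩) fail

/-- middle steps -/
def run {β : Type} (C C0 : Ctx) (fail : β) (tgt : Nat) (kap : Int) (th : Nat)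
    (l : List (Nat × Nat)) (S : Sta) (K : Sta → β) : β :=
  List.rec (motive := fun _ => Sta → β) K
    (fun a _ ih S => step C C0 fail S th a.1 a.2 fun o S' =>
      cond (inMid o && noSec tgt kap o) (ih S') fail) l S

/-- a section with a parallelogram (units `2^(-36)`), and orientation -/
structure Tgt where
  a : Int
  b : Int
  Ua : Int
  Ub : Int
  Va : Int
  Vb : Int
  flip : Bool

/-- covering condition for one target; mode 0 interior, 1 left edge, 2 right edge -/
def cover (C : Ctx) (mode : Nat) (F : Fnl) (t : Tgt) : Bool :=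
  fInt (t.Ua * t.Vb - t.Ub * t.Va) fun det => fInt (det * 16777216) fun D =>
  imul t.a 16777216 fun ta => imul t.b 16777216 fun tb =>
  isub F.x0 ta fun cx => isub F.y0 tb fun cy => isub F.X ta fun X => isub F.Y tb fun Y =>
  imul t.Vb cx fun u1 => imul t.Va cy fun u2 => isub u1 u2 fun cU =>
  imul t.Vb X fun u3 => imul t.Va Y fun u4 => isub u3 u4 fun NU => l1 C false NU fun nU =>
  fNat (Int.natAbs t.Vb * F.eX + Int.natAbs t.Va * F.eY) fun eU =>
  fInt (lo cU nU - eU) fun lU => fInt (hi cU nU + eU) fun hU =>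
  (small2 t.a && (small2 t.b && (small2 t.Ua && (small2 t.Ub && (small2 t.Va && (small2 t.Vb &&
    decide (0 < det))))))) &&
  (match mode with
  | 0 => decide (D < lU) || (decide (hU < -D) ||
      (imul t.Ua cy fun v1 => imul t.Ub cx fun v2 => isub v1 v2 fun cV =>
       imul t.Ua Y fun v3 => imul t.Ub X fun v4 => isub v3 v4 fun NV => l1 C false NV fun nV =>
       fNat (Int.natAbs t.Ua * F.eY + Int.natAbs t.Ub * F.eX) fun eV =>
       decide (hi cV nV + eV < D) && decide (-D < lo cV nV - eV)))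
  | 1 => cond t.flip (decide (D < lU)) (decide (hU < -D))
  | _ => cond t.flip (decide (hU < -D)) (decide (D < lU)))

def coverAll (C : Ctx) (mode : Nat) (F : Fnl) (l : List Tgt) : Bool :=
  List.rec (motive := fun _ => Bool) true (fun t _ ih => cover C mode F t && ih) l

/-- a node: section, parallelogram, target section and successors -/
structure Node where
  src : Nat
  kap : Int
  gam : Int
  a : Int
  b : Int
  Ua : Int
  Ub : Int
  Va : Int
  Vb : Int
  tgt : Nat
  kap' : Int
  succ : List Tgt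
  /-- sign of `σ` at the left edge is positive (collision nodes) -/
  flip : Bool

/-- a box (units `2^(-11)`): centre and half widths in the parameters `(u, v)` of the node -/
structure Box where
  uc : Int
  uh : Int
  vc : Int
  vh : Int
  mode : Nat

/-- data of a state -/
structure StaD where
  c : List (List Nat)
  s : List (List Nat)
  k : List (List Nat)
  g : List (List Nat)
  p : List (List Nat)
  q : List (List Nat)
  E : Nat
  eh : Nat
  et : Nat
  lam : Nat

/-- unpack the data of a state -/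
def load {β : Type} (C0 : Ctx) (fail : β) (D : StaD) (K : Sta → β) : β :=
  fNat (packRR D.c) fun c => fNat (packRR D.s) fun s => fNat (packRR D.k) fun kk =>
  fNat (packRR D.g) fun g => fNat (packRR D.p) fun p => fNat (packRR D.q) fun q =>
  cond (Nat.beq (Nat.land c C0.M) c && (Nat.beq (Nat.land s C0.M) s && (Nat.beq (Nat.land kk C0.M) kk &&
    (Nat.beq (Nat.land g C0.M) g && (Nat.beq (Nat.land p C0.M) p && (Nat.beq (Nat.land q C0.M) q &&
    Nat.ble 1 D.lam))))))
    (K ⟨c, s, kk, g, p, q, D.E, D.eh, D.et, D.lam⟩) fail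

/-- `ℓ¹` distance of two digit forms -/
def dist {β : Type} (C0 : Ctx) (fail : β) (x y : Nat) (k : Nat → β) : β :=
  l1 C0 fail (Int.sub (Int.ofNat x) (Int.ofNat y)) k

/-- the computed state `S` is described by the state `D` -/
def link (C0 : Ctx) (S D : Sta) : Bool :=
  dist C0 false S.c D.c fun dc => dist C0 false S.s D.s fun ds => dist C0 false S.k D.k fun dk =>
  dist C0 false S.g D.g fun dg => dist C0 false S.p D.p fun dp => dist C0 false S.q D.q fun dq =>
  Nat.beq S.lam D.lam && (Nat.ble (S.eh + dc + ds) D.eh && (Nat.ble (S.et + dk + dg) D.et &&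
    Nat.ble (S.E + dp + dq) D.E))

/-- first segment: initial state, first step, middle steps, link to `D` -/
def checkA (n : Node) (b : Box) (A N th : List (List Nat)) (f : Nat × Nat)
    (l : List (Nat × Nat)) (D : StaD) : Bool :=
  mkCtx fun C C0 =>
  fNat (packRR th) fun th =>
  init C0 false n.src n.kap n.gam
    (16777216 * n.a + 8192 * (n.Ua * b.uc + n.Va * b.vc)) (8192 * n.Ua * b.uh) (8192 * n.Va * b.vh)
    (16777216 * n.b + 8192 * (n.Ub * b.uc + n.Vb * b.vc)) (8192 * n.Ub * b.uh) (8192 * n.Vb * b.vh)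
    A N fun S =>
  step C C0 false S th f.1 f.2 fun o S' =>
  cond (inFirst n.src o && noSec n.tgt n.kap' o)
    (run C C0 false n.tgt n.kap' th l S' fun S => load C0 false D fun D => link C0 S D) false

/-- middle segment: from `D` through middle steps to `D'` -/
def checkM (n : Node) (th : List (List Nat)) (D : StaD) (l : List (Nat × Nat)) (D' : StaD) :
    Bool :=
  mkCtx fun C C0 =>
  fNat (packRR th) fun th =>
  load C0 false D fun S => run C C0 false n.tgt n.kap' th l S fun S =>
  load C0 false D' fun D => link C0 S D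

/-- last segment: from `D` through middle steps and the last step, final test -/
def checkZ (n : Node) (b : Box) (th : List (List Nat)) (D : StaD) (l : List (Nat × Nat))
    (f : Nat × Nat) : Bool :=
  mkCtx fun C C0 =>
  fNat (packRR th) fun th =>
  load C0 false D fun S => run C C0 false n.tgt n.kap' th l S fun S =>
  step C C0 false S th f.1 f.2 fun o S' =>
  cond (inLast n.tgt o)
    (finish C0 false n.tgt n.kap' S o S' fun F =>
      cond (Nat.beq n.tgt 4)
        (match b.mode with
          | 0 => true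
          | 1 => cond n.flip (decide (0 < F.sl)) (decide (F.sh < 0))
          | _ => cond n.flip (decide (F.sh < 0)) (decide (0 < F.sl)))
        (coverAll C0 b.mode F n.succ)) false

end

end Pool.Agent.Ecl.K
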