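import Mathlib

/-!
# The Thiele–Burrau form of the restricted three-body problem with equal primaries,
  Jacobi constant `C = 14/5`

Positions `z = cosh (ξ + iη) / 2` in the rotating frame (primaries at `±1/2`), time `dt = J ds`.
-/

set_option autoImplicit false

namespace Pool.Agent.Ecl

/-- A state of the Thiele–Burrau system. -/
structure St where
  xi : ℝ
  eta : ℝ
  p : ℝ
  q : ℝ

/-- The Jacobi constant. -/
noncomputable def CJ : ℝ := 14 / 5

/-- `J = |dz/dζ|²`. -/
noncomputable def JJ (ξ η : ℝ) : ℝ := (Real.cosh ξ ^ 2 - Real.cos η ^ 2) / 4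

/-- The right-hand side of the equation for `p`. -/
noncomputable def Fp (ξ η q : ℝ) : ℝ :=
  2 * JJ ξ η * q + (Real.sinh ξ * Real.cosh ξ * (2 * Real.cosh ξ ^ 2 - 1) / 16
    + Real.sinh ξ / 2 - CJ / 4 * (Real.sinh ξ * Real.cosh ξ))

/-- The right-hand side of the equation for `q`. -/
noncomputable def Fq (ξ η p : ℝ) : ℝ :=
  -(2 * JJ ξ η * p) + (Real.sin η * Real.cos η * (2 * Real.cos η ^ 2 - 1) / 16
    - CJ / 4 * (Real.sin η * Real.cos η))

/-- `x` solves the Thiele–Burrau system at every time of `[0, T]` (two-sided derivatives). -/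
def IsSol (x : ℝ → St) (T : ℝ) : Prop :=
  ∀ t ∈ Set.Icc 0 T,
    HasDerivAt (fun s => (x s).xi) (x t).p t ∧
    HasDerivAt (fun s => (x s).eta) (x t).q t ∧
    HasDerivAt (fun s => (x s).p) (Fp (x t).xi (x t).eta (x t).q) t ∧
    HasDerivAt (fun s => (x s).q) (Fq (x t).xi (x t).eta (x t).p) t

/-- The open half strip, i.e. the open upper half plane. -/
def Inside (y : St) : Prop := 0 < y.xi ∧ 0 < y.eta ∧ y.eta < Real.pi

/-- The three ways of leaving the upper half plane. `mid`: between the primaries,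
`rgt`: beyond `z = 1/2`, `lft`: beyond `z = -1/2`. -/
inductive Ex
  | mid
  | rgt
  | lft
  deriving DecidableEq

/-- Transversal exit through the side `e`. -/
def Exits : Ex → St → Prop
  | .mid, y => y.xi = 0 ∧ y.p < 0 ∧ 0 < y.eta ∧ y.eta < Real.pi
  | .rgt, y => y.eta = 0 ∧ y.q < 0 ∧ 0 < y.xi
  | .lft, y => y.eta = Real.pi ∧ 0 < y.q ∧ 0 < y.xi

/-- Rotation by `π` after an exit: the start of the next flight. -/
noncomputable def rot : Ex → St → St
  | .mid, y => ⟨0, Real.pi - y.eta, -y.p, -y.q⟩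
  | .rgt, y => ⟨y.xi, Real.pi, y.p, y.q⟩
  | .lft, y => ⟨y.xi, 0, y.p, y.q⟩

/-- `Flight a e y`: the orbit of `a` stays inside for `0 < t < T` and leaves at time `T > 0`
through the side `e` at the point `y`. -/
def Flight (a : St) (e : Ex) (y : St) : Prop :=
  ∃ (T : ℝ) (x : ℝ → St), 0 < T ∧ x 0 = a ∧ IsSol x T ∧
    (∀ t, 0 < t → t < T → Inside (x t)) ∧ x T = y ∧ Exits e y

/-- `LastArc a σ`: the orbit of `a` stays inside on `(0,T']`, then on `[T',T]` it runs
monotonically into a neighbourhood of the collision `ζ = iπ` with the primary `z = -1/2` and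
meets the line `η - ξ = π` for the first time at time `T`, at the point `(σ, π + σ)`.
`σ = 0` means collision with the primary `z = -1/2`. -/
def LastArc (a : St) (σ : ℝ) : Prop :=
  ∃ (T' T : ℝ) (x : ℝ → St), 0 < T' ∧ T' < T ∧ x 0 = a ∧ IsSol x T ∧
    (∀ t, 0 < t → t ≤ T' → Inside (x t)) ∧
    (∀ t, T' ≤ t → t ≤ T → (x t).p < 0 ∧ 0 < (x t).q ∧ |(x t).xi| < 1 / 2 ∧
      |(x t).eta - Real.pi| < 1 / 2) ∧
    (∀ t, 0 ≤ t → t < T → (x t).eta - (x t).xi < Real.pi) ∧
    (x T).xi = σ ∧ (x T).eta = Real.pi + σ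

/-- Itinerary with letters `r` starting at the state `a`, ending with signed miss `σ`. -/
def Itin : St → List Ex → ℝ → Prop
  | a, [], σ => LastArc a σ
  | a, e :: r, σ => ∃ y : St, Flight a e y ∧ Itin (rot e y) r σ

/-- The ejection from the primary `z = 1/2` (`ζ = 0`) with angle `θ`. -/
noncomputable def eject (θ : ℝ) : St := ⟨0, 0, Real.cos θ, Real.sin θ⟩

/-- Statement (I): every exit word is realised by a whole interval of ejections from the
primary `z = 1/2`, across which the signed miss of the other primary changes sign. -/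
def StatementI : Prop :=
  ∀ r : List Ex, ∃ θ₁ θ₂ : ℝ, 0 < θ₁ ∧ θ₁ < θ₂ ∧ θ₂ < Real.pi / 2 ∧
    ∃ σ : ℝ → ℝ, (∀ θ ∈ Set.Icc θ₁ θ₂, Itin (eject θ) r (σ θ)) ∧
      σ θ₁ * σ θ₂ < 0

end Pool.Agent.Ecl
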