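import Pool.Agent.Lib_helper51.Ecl.Sem

/-!
# Semantic definitions for the soundness of the kernel checker
-/

set_option autoImplicit false
set_option exponentiation.threshold 300000

namespace Pool.Agent.Ecl

open Real Polynomial K

/-! ## forcing combinators are transparent -/

theorem fNat_eq {β : Type} (n : ℕ) (k : ℕ → β) : fNat n k = k n := by cases n <;> rfl

theorem fInt_eq {β : Type} (z : ℤ) (k : ℤ → β) : fInt z k = k z := by
  cases z <;> simp [fInt, fNat_eq]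

theorem sh_eq {α β : Type} (n : α) (k : α → β) : sh n k = k n := rfl

theorem fList_eq {β : Type} (l : List ℕ) (k : List ℕ → β) : fList l k = k l := by
  cases l <;> rfl

theorem iadd_eq {β : Type} (a b : ℤ) (k : ℤ → β) : iadd a b k = k (a + b) := by
  rw [iadd, fInt_eq]; rfl

theorem isub_eq {β : Type} (a b : ℤ) (k : ℤ → β) : isub a b k = k (a - b) := by
  rw [isub, fInt_eq]; rfl

theorem imul_eq {β : Type} (a b : ℤ) (k : ℤ → β) : imul a b k = k (a * b) := by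
  rw [imul, fInt_eq]; rfl

/-! ## the two contexts -/

/-- context for `T = 16` -/
def ctx16 : Ctx :=
  ⟨tri (2 ^ 69 - 1) 160 17 8, tri (2 ^ 68) 160 17 8, 160 * 289,
    rep (tri (2 ^ 68) 160 17 8) (160 * 289) 17, rep (tri (2 ^ 69 - 1) 160 17 8) (160 * 289) 17,
    offD (tri (2 ^ 68) 160 17 8) (160 * 289) 16,
    rep (2 ^ 159 + 2 ^ 128 + 2 ^ 59) 160 (33 * 289), rep (2 ^ 159) 160 (33 * 289),
    rep (2 ^ 146 - 1) 160 (33 * 289), rep (2 ^ 159) 160 (17 * 289),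
    rep (2 ^ 146 - 1) 160 (17 * 289), 2 ^ (160 * 145),
    Nat.sub (2 ^ (160 * 145)) (tri (2 ^ 68) 160 17 8),
    rep (2 ^ 159 + 2 ^ 128 + 2 ^ 59) 160 145, rep (2 ^ 159 + 2 ^ 78 + 2 ^ 9) 160 145⟩

/-- context for `T = 0` -/
def ctx0 : Ctx :=
  ⟨tri (2 ^ 69 - 1) 160 17 8, tri (2 ^ 68) 160 17 8, 160 * 289,
    tri (2 ^ 68) 160 17 8, tri (2 ^ 69 - 1) 160 17 8, 0,
    rep (2 ^ 159 + 2 ^ 128 + 2 ^ 59) 160 289, rep (2 ^ 159) 160 289,
    rep (2 ^ 146 - 1) 160 289, rep (2 ^ 159) 160 289,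
    rep (2 ^ 146 - 1) 160 289, 2 ^ (160 * 145),
    Nat.sub (2 ^ (160 * 145)) (tri (2 ^ 68) 160 17 8),
    rep (2 ^ 159 + 2 ^ 128 + 2 ^ 59) 160 145, rep (2 ^ 159 + 2 ^ 78 + 2 ^ 9) 160 145⟩

theorem mkCtx_eq {β : Type} (k : Ctx → Ctx → β) : mkCtx k = k ctx16 ctx0 := by
  unfold mkCtx ctx16 ctx0
  simp only [fNat_eq]

/-! ## packed polynomials

The integer `f(2^160)` represents the polynomial `f ∈ ℤ[X]`; the exponent
`n = 289 k + 17 i + j` stands for the monomial `u^i v^j t^k`. -/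

/-- admissible exponents: `i + j ≤ 8`, `k ≤ T` -/
def vld (T n : ℕ) : Prop := n / 289 ≤ T ∧ (n / 17) % 17 + n % 17 ≤ 8

/-- the monomial with exponent `n` -/
noncomputable def mon (u v t : ℝ) (n : ℕ) : ℝ :=
  u ^ ((n / 17) % 17) * v ^ (n % 17) * t ^ (n / 289)

/-- the real function given by `f` -/
noncomputable def val (f : ℤ[X]) (u v t : ℝ) : ℝ := f.sum fun n a => (a : ℝ) * mon u v t n

/-- the `ℓ¹` norm -/
noncomputable def lnorm (f : ℤ[X]) : ℤ := f.sum fun _ a => |a|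

/-- `f` represents `N`, has admissible exponents and coefficients bounded by `b` -/
structure Rep (T : ℕ) (b N : ℤ) (f : ℤ[X]) : Prop where
  ev : f.eval (2 ^ 160) = N
  sup : ∀ n, f.coeff n ≠ 0 → vld T n
  bd : ∀ n, |f.coeff n| ≤ b

/-- What is needed from a context. -/
structure CtxOK (T : ℕ) (C : Ctx) : Prop where
  o : C.O = ctx0.O
  m : C.M = ctx0.M
  sg : Nat.land C.SG C.LO ≠ C.SG
  sh : Nat.land C.SH C.LH ≠ C.SH
  mB : ∀ z : ℕ, ∃ f : ℤ[X], Rep T (2 ^ 68) ((Nat.land z C.MB : ℕ) - (C.OB : ℤ)) f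
  lo : ∀ z : ℕ, Nat.land z C.LO = z → ∃ f : ℤ[X], f.eval (2 ^ 160) = (z : ℤ) ∧
    (∀ n, 0 ≤ f.coeff n ∧ f.coeff n < 2 ^ 146) ∧ f.eval 1 = ((z % (2 ^ 160 - 1) : ℕ) : ℤ)
  lh : ∀ z : ℕ, Nat.land z C.LH = z → ∃ f : ℤ[X], f.eval (2 ^ 160) = (z : ℤ) ∧
    (∀ n, 0 ≤ f.coeff n ∧ f.coeff n < 2 ^ 146) ∧ f.eval 1 = ((z % (2 ^ 160 - 1) : ℕ) : ℤ)

/-- `y` is a digit form -/
def Msk (y : ℕ) : Prop := Nat.land y ctx0.M = y

/-- the `n`-th digit -/
def dig (y n : ℕ) : ℕ := y / 2 ^ (160 * n) % 2 ^ 160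

/-- admissible exponents of `(u, v)` -/
def vset : Finset ℕ := (Finset.range 289).filter fun n => (n / 17) % 17 + n % 17 ≤ 8

/-- the polynomial of a digit form (digits have offset `2^68`) -/
noncomputable def dpoly (y : ℕ) : ℤ[X] := ∑ n ∈ vset, C ((dig y n : ℤ) - 2 ^ 68) * X ^ n

/-- its value at `(u, v)` (unit `2^(-60)`) -/
noncomputable def pv (y : ℕ) (u v : ℝ) : ℝ := val (dpoly y) u v 0 / w60

/-- the polynomial in `(u, v, t)` of a (reversed) list of residues -/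
noncomputable def lpoly : List ℕ → ℤ[X]
  | [] => 0
  | r :: l => lpoly l + dpoly (ym ctx16 r) * X ^ (289 * l.length)

/-- its derivative in `t` -/
noncomputable def dlpoly : List ℕ → ℤ[X]
  | [] => 0
  | r :: l => dlpoly l + C (l.length : ℤ) * (dpoly (ym ctx16 r) * X ^ (289 * (l.length - 1)))

/-- value of the list polynomial (unit `2^(-60)`) -/
noncomputable def lv (l : List ℕ) (u v t : ℝ) : ℝ := val (lpoly l) u v t / w60

/-- value of its derivative -/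
noncomputable def dlv (l : List ℕ) (u v t : ℝ) : ℝ := val (dlpoly l) u v t / w60

/-- `f` is the polynomial of the Taylor model `A`, which describes `F` -/
structure TMP (T : ℕ) (A : TM) (f : ℤ[X]) (F : ℝ → ℝ → ℝ → ℝ) : Prop where
  rep : Rep T (2 ^ 70) A.N f
  nr : lnorm f ≤ (A.nr : ℤ)
  er : ∀ u v t : ℝ, |u| ≤ 1 → |v| ≤ 1 → 0 ≤ t → t ≤ 1 →
    |val f u v t - w60 * F u v t| ≤ (A.e : ℝ)

/-! ## the orbits -/

/-- cutoff -/
noncomputable def cl (x : ℝ) : ℝ := max (-(2 : ℝ) ^ 20) (min ((2 : ℝ) ^ 20) x)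

/-- global solution of the cut off system -/
def ClSol (z : ℝ → St) : Prop :=
  ∀ t : ℝ,
    HasDerivAt (fun s => (z s).xi) (cl (z t).p) t ∧
    HasDerivAt (fun s => (z s).eta) (cl (z t).q) t ∧
    HasDerivAt (fun s => (z s).p) (Fp (cl (z t).xi) (z t).eta (cl (z t).q)) t ∧
    HasDerivAt (fun s => (z s).q) (Fq (cl (z t).xi) (z t).eta (cl (z t).p)) t

/-- the cutoff is not active -/
def Bd (x : St) : Prop := |x.xi| ≤ 2 ^ 20 ∧ |x.p| ≤ 2 ^ 20 ∧ |x.q| ≤ 2 ^ 20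

/-- The point `x` is described by the algebraic state `(c, s, k, g, p, q)` with relation errors
`eh`, `et` and weighted error `E` (weight `lam`). -/
def Near (c s k g p q eh et E lam : ℝ) (x : St) : Prop :=
  ∃ ξ η : ℝ, |c + s - exp ξ| ≤ eh ∧ |c - s - exp (-ξ)| ≤ eh ∧
    (k - cos η) ^ 2 + (g - sin η) ^ 2 ≤ et ^ 2 ∧
    lam ^ 2 * ((x.xi - ξ) ^ 2 + (x.eta - η) ^ 2) + (x.p - p) ^ 2 + (x.q - q) ^ 2 ≤ E ^ 2

/-- the state `S` describes `x`, at the point `(u, v)` of the box -/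
def StaOK (S : Sta) (u v : ℝ) (x : St) : Prop :=
  Near (pv S.c u v) (pv S.s u v) (pv S.k u v) (pv S.g u v) (pv S.p u v) (pv S.q u v)
    (S.eh / w60) (S.et / w60) (S.E / w60) (S.lam / 16) x

/-- the polynomials of a state are digit forms -/
structure StaMsk (S : Sta) : Prop where
  c : Msk S.c
  s : Msk S.s
  k : Msk S.k
  g : Msk S.g
  p : Msk S.p
  q : Msk S.q
  lam : 1 ≤ S.lam

/-- Meaning of the bounds `o` of a step of duration `h`, for the point `x` of the orbit at time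
`τ ∈ [0, h]` of the step; `S'` is the state at the end of the step. -/
structure OutOK (o : Out) (S' : Sta) (u v h τ : ℝ) (x : St) : Prop where
  bd : Bd x
  slo : (o.slo : ℝ) - (Out.dH o : ℝ) ≤ w60 * sinh x.xi
  sab : w60 * |sinh x.xi| ≤ (o.sn : ℝ) + (Out.dH o : ℝ)
  glo : (o.glo : ℝ) - (Out.dT o : ℝ) ≤ w60 * sin x.eta
  gab : w60 * |sin x.eta| ≤ (o.gn : ℝ) + (Out.dT o : ℝ)
  klo : (o.klo : ℝ) - (Out.dT o : ℝ) ≤ w60 * cos x.eta
  khi : w60 * cos x.eta ≤ (o.khi : ℝ) + (Out.dT o : ℝ)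
  plo : (o.plo : ℝ) - (o.E : ℝ) ≤ w60 * x.p
  phi : w60 * x.p ≤ (o.phi : ℝ) + (o.E : ℝ)
  pab : w60 * |x.p| ≤ (o.pn : ℝ) + (o.E : ℝ)
  qlo : (o.qlo : ℝ) - (o.E : ℝ) ≤ w60 * x.q
  qhi : w60 * x.q ≤ (o.qhi : ℝ) + (o.E : ℝ)
  qab : w60 * |x.q| ≤ (o.qn : ℝ) + (o.E : ℝ)
  ce : |w60 * cosh x.xi - w60 * pv S'.c u v| ≤ (Out.dH o : ℝ) + (1 - τ / h) * (o.dc : ℝ)
  ke : |w60 * cos x.eta - w60 * pv S'.k u v| ≤ (Out.dT o : ℝ) + (1 - τ / h) * (o.dk : ℝ)
  pe : |w60 * x.p - w60 * pv S'.p u v| ≤ (o.E : ℝ) + (1 - τ / h) * (o.dp : ℝ)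
  qe : |w60 * x.q - w60 * pv S'.q u v| ≤ (o.E : ℝ) + (1 - τ / h) * (o.dq : ℝ)

/-- Meaning of a step for the orbit `z` which starts the step at time `a` and has duration
`h`. -/
structure StepOK (o : Out) (S' : Sta) (u v h : ℝ) (z : ℝ → St) (a : ℝ) : Prop where
  out : ∀ τ : ℝ, 0 ≤ τ → τ ≤ h → OutOK o S' u v h τ (z (a + τ))
  fin : StaOK S' u v (z (a + h))
  se : |w60 * sinh (z (a + h)).xi - w60 * pv S'.s u v| ≤ (Out.dH o : ℝ)
  ge : |w60 * sin (z (a + h)).eta - w60 * pv S'.g u v| ≤ (Out.dT o : ℝ)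

/-- Meaning of a step: for every point `(u, v)` of the box a duration `h`, and `StepOK` for
every orbit which is described by `S` at the start. -/
def StepSem (S : Sta) (o : Out) (S' : Sta) : Prop :=
  0 < o.hlo ∧ ∀ u v : ℝ, |u| ≤ 1 → |v| ≤ 1 → ∃ h : ℝ, 0 < h ∧ (o.hlo : ℝ) ≤ w60 * h ∧
    w60 * h ≤ (o.hn : ℝ) ∧ ∀ (z : ℝ → St) (a : ℝ), ClSol z → StaOK S u v (z a) →
      StepOK o S' u v h z a

/-! ## boxes and segments -/

/-- The orbit stays inside on `(0, τ]`, off the mid section and bounded on `[0, τ]`. -/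
structure Good (tgt : ℕ) (κ' : ℝ) (z : ℝ → St) (τ : ℝ) : Prop where
  ins : ∀ t, 0 < t → t ≤ τ → Inside (z t)
  nos : ∀ t, 0 ≤ t → t ≤ τ → NoSec tgt κ' (z t)
  bd : ∀ t, 0 ≤ t → t ≤ τ → Bd (z t)

/-- the point of the node with box coordinates `(u, v) ∈ [-1, 1]²` in the box `b` -/
noncomputable def bu (b : Box) (u : ℝ) : ℝ := (b.uc + u * b.uh) / 2048

/-- second coordinate -/
noncomputable def bv (b : Box) (v : ℝ) : ℝ := (b.vc + v * b.vh) / 2048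

/-- state of the data `D` -/
noncomputable def staOf (D : StaD) : Sta :=
  ⟨packRR D.c, packRR D.s, packRR D.k, packRR D.g, packRR D.p, packRR D.q, D.E, D.eh, D.et, D.lam⟩

/-- final condition, by mode: 0 interior, 1 left edge, 2 right edge -/
def CovM (mode : ℕ) (t : K.Tgt) (X Y : ℝ) : Prop :=
  ∃ U V : ℝ,
    X = (t.a + U * t.Ua + V * t.Va) / w36 ∧ Y = (t.b + U * t.Ub + V * t.Vb) / w36 ∧
    (1 < U ∨ U < -1 ∨ |V| < 1) ∧
    (mode = 1 → if t.flip then 1 < U else U < -1) ∧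
    (2 ≤ mode → if t.flip then U < -1 else 1 < U)

/-- What is proved at the end of the orbit `z` which starts at `z 0`. -/
def EndOK (n : K.Node) (mode : ℕ) (x : St) : Prop :=
  (n.tgt ≠ 4 → ∃ y : St, Fly n.tgt (n.kap' / w60) x y ∧
      ∀ t ∈ n.succ, CovM mode t (outX n.tgt y) (outY n.tgt y)) ∧
    (n.tgt = 4 → ∃ σ : ℝ, LastArc x σ ∧
      (mode = 1 → if n.flip then 0 < σ else σ < 0) ∧ (2 ≤ mode → if n.flip then σ < 0 else 0 < σ))

/-- first segment -/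
def SegA (n : K.Node) (b : Box) (D : StaD) : Prop :=
  ∀ u v : ℝ, |u| ≤ 1 → |v| ≤ 1 → ∃ (z : ℝ → St) (τ : ℝ), ClSol z ∧ 0 < τ ∧
    OnSec n.src (n.kap / w60) (nX n (bu b u) (bv b v)) (nY n (bu b u) (bv b v)) (z 0) ∧
    Good n.tgt (n.kap' / w60) z τ ∧ StaOK (staOf D) u v (z τ)

/-- middle segment -/
def SegM (n : K.Node) (D D' : StaD) : Prop :=
  ∀ u v : ℝ, |u| ≤ 1 → |v| ≤ 1 → ∀ (z : ℝ → St) (τ : ℝ), ClSol z → 0 < τ →
    Good n.tgt (n.kap' / w60) z τ → StaOK (staOf D) u v (z τ) →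
    ∃ τ', 0 < τ' ∧ Good n.tgt (n.kap' / w60) z τ' ∧ StaOK (staOf D') u v (z τ')

/-- last segment -/
def SegZ (n : K.Node) (b : Box) (D : StaD) : Prop :=
  ∀ u v : ℝ, |u| ≤ 1 → |v| ≤ 1 → ∀ (z : ℝ → St) (τ : ℝ), ClSol z → 0 < τ →
    OnSec n.src (n.kap / w60) (nX n (bu b u) (bv b v)) (nY n (bu b u) (bv b v)) (z 0) →
    Good n.tgt (n.kap' / w60) z τ → StaOK (staOf D) u v (z τ) → EndOK n b.mode (z 0)

/-- What the certificates of a box prove. -/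
def BoxOK (n : K.Node) (b : Box) : Prop :=
  ∀ u v : ℝ, |u| ≤ 1 → |v| ≤ 1 → ∃ x : St,
    OnSec n.src (n.kap / w60) (nX n (bu b u) (bv b v)) (nY n (bu b u) (bv b v)) x ∧
    EndOK n b.mode x

end Pool.Agent.Ecl
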