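import Pool.Agent.Lib_helper51.Ecl.SDefs

/-!
# The values computed by one step of the checker, and what is known about them
-/

set_option autoImplicit false

namespace Pool.Agent.Ecl

open Real Polynomial K

/-- the Taylor models, polynomials and numbers computed by `step` -/
structure SV where
  yH : ℕ
  Lc : List ℕ
  Ls : List ℕ
  Lk : List ℕ
  Lg : List ℕ
  Lp : List ℕ
  Lq : List ℕ
  c1 : ℕ
  s1 : ℕ
  k1 : ℕ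
  g1 : ℕ
  p1 : ℕ
  q1 : ℕ
  c : TM
  s : TM
  k : TM
  g : TM
  p : TM
  q : TM
  h : TM
  CC : TM
  KK : TM
  CS : TM
  KG : TM
  CSCC : TM
  KGKK : TM
  P : TM
  Q : TM
  sP : TM
  cP : TM
  gQ : TM
  kQ : TM
  JQ : TM
  JP : TM
  ndc : ℕ
  ndk : ℕ
  ndp : ℕ
  ndq : ℕ
  rc : ℕ
  rs : ℕ
  rk : ℕ
  rg : ℕ
  rp : ℕ
  rq : ℕ
  n11 : ℕ
  n22 : ℕ
  n12 : ℕ
  n21 : ℕ
  fCC : ℤ[X]
  fKK : ℤ[X]
  fCS : ℤ[X]
  fKG : ℤ[X]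
  fCSCC : ℤ[X]
  fKGKK : ℤ[X]
  fP : ℤ[X]
  fQ : ℤ[X]
  fsP : ℤ[X]
  fcP : ℤ[X]
  fgQ : ℤ[X]
  fkQ : ℤ[X]
  fJQ : ℤ[X]
  fJP : ℤ[X]

/-- initial weighted error, with the new weight -/
def E0of (S : Sta) (lam : ℕ) : ℕ := cond (Nat.ble lam S.lam) S.E (S.E * lam / S.lam + 1)

namespace SV
variable (V : SV)

/-! ### the functions -/

/-- duration of the step -/
noncomputable def H (u v : ℝ) : ℝ := pv V.yH u v
/-- approximation of `cosh ξ` -/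
noncomputable def cF (u v t : ℝ) : ℝ := lv V.Lc u v t
/-- approximation of `sinh ξ` -/
noncomputable def sF (u v t : ℝ) : ℝ := lv V.Ls u v t
/-- approximation of `cos η` -/
noncomputable def kF (u v t : ℝ) : ℝ := lv V.Lk u v t
/-- approximation of `sin η` -/
noncomputable def gF (u v t : ℝ) : ℝ := lv V.Lg u v t
/-- approximation of `p` -/
noncomputable def pF (u v t : ℝ) : ℝ := lv V.Lp u v t
/-- approximation of `q` -/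
noncomputable def qF (u v t : ℝ) : ℝ := lv V.Lq u v t

/-! ### the numbers -/

/-- bound of `|h p|` -/
def x : ℕ := V.h.nr * V.p.nr / n60 + 1
/-- new relation error of `cosh`, `sinh` -/
def eh (S : Sta) : ℕ :=
  (S.eh + V.rc + V.sP.e + V.rs + V.cP.e) * (n120 + V.x * n60 + V.x * V.x) / n120 + 1
/-- new relation error of `cos`, `sin` -/
def et (S : Sta) : ℕ := S.et + V.rk + V.gQ.e + V.rg + V.kQ.e + 1
/-- sum -/
def er (S : Sta) : ℕ := V.eh S + V.et S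
/-- bound of `cosh ξ` -/
def Cb (S : Sta) : ℕ := (V.c.nr + V.eh S) * 17 / Nat.pow 2 64 + 1
/-- bound of `|p|` -/
def Pb : ℕ := V.p.nr / n60 + 2
/-- bound of `|q|` -/
def Qb : ℕ := V.q.nr / n60 + 2
/-- defect -/
def rho (S : Sta) : ℕ :=
  (V.rp + n60 * (40 * V.JQ.e) + V.h.nr * (10 * V.CSCC.e + 61 * V.CS.e)) / (80 * n60) +
    ((V.rq + n60 * (40 * V.JP.e) + V.h.nr * (10 * V.KGKK.e + 61 * V.KG.e)) / (80 * n60)) +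
    V.h.nr * V.er S * ((V.Cb S + 1) * (V.Pb + V.Qb) + V.Cb S * V.Cb S * V.Cb S + 2 * V.Cb S + 3)
      / n60 + 4
/-- a priori bound of the error -/
def Bm (S : Sta) (lam : ℕ) : ℕ := 8 * (E0of S lam + V.rho S)
/-- logarithmic norm, linear part, unit `1/80 * 2^(-120)` -/
def M80 : ℕ :=
  Nat.max (V.n11 + 80 * V.q.nr * V.CS.e + V.CC.e * (80 * V.CC.nr + 40 * V.CC.e + 152 * n60))
      (V.n22 + 80 * V.p.nr * V.KG.e + V.KK.e * (80 * V.KK.nr + 40 * V.KK.e + 152 * n60)) +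
    80 * Nat.max (V.n12 + V.q.nr * V.KG.e) (V.n21 + V.p.nr * V.CS.e)
/-- logarithmic norm times `h` -/
def mu (S : Sta) (lam : ℕ) : ℕ :=
  V.h.nr * V.M80 / (10 * lam * n120) +
    V.h.nr * (V.Cb S * V.Cb S * (V.Pb + V.Qb + 2) + V.Cb S * V.Cb S * V.Cb S * V.Cb S) *
      V.Bm S lam * 256 / (lam * lam * n60) +
    V.h.nr * V.er S * (2 * V.Cb S * V.Cb S * V.Cb S + 4 * V.Cb S + 1 +
      (V.Pb + V.Qb) * (2 * V.Cb S + 1)) * 16 / (lam * n60) + 3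
/-- quarter of the exponent -/
def y (S : Sta) (lam : ℕ) : ℕ := V.mu S lam / 4 + 1
/-- bound of `exp y` -/
def F (S : Sta) (lam : ℕ) : ℕ := n60 + V.y S lam + V.y S lam * V.y S lam / n60 + 1
/-- final error -/
def E1 (S : Sta) (lam : ℕ) : ℕ :=
  (E0of S lam + V.rho S) * (V.F S lam * V.F S lam * V.F S lam * V.F S lam) / Nat.pow 2 240 + 1
/-- error of `ξ`, `η` -/
def dX (S : Sta) (lam : ℕ) : ℕ := V.E1 S lam * 16 / lam + 1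

/-- the bounds -/
def out (S : Sta) (lam : ℕ) : Out :=
  ⟨lo (cd S.s) V.s.nr, lo (cd S.g) V.g.nr, lo (cd S.k) V.k.nr, hi (cd S.k) V.k.nr,
    lo (cd S.p) V.p.nr, hi (cd S.p) V.p.nr, lo (cd S.q) V.q.nr, hi (cd S.q) V.q.nr,
    V.E1 S lam, V.eh S, V.et S, V.dX S lam, V.s.nr, V.g.nr, V.p.nr, V.q.nr, V.h.nr, V.Cb S,
    lo (cd V.yH) V.h.nr, V.ndc, V.ndk, V.ndp, V.ndq⟩

/-- the new state -/
def sta (S : Sta) (lam : ℕ) : Sta :=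
  ⟨V.c1, V.s1, V.k1, V.g1, V.p1, V.q1, V.E1 S lam, V.eh S, V.et S, lam⟩

end SV

/-- what is known about a coefficient list with initial digit form `y0`, final digit form `y1`
and Taylor model `A` -/
structure LOK (L : List ℕ) (y0 y1 : ℕ) (A : TM) : Prop where
  tm : TMP 16 A (lpoly L) (lv L)
  rep : Rep 16 (2 ^ 68) A.N (lpoly L)
  e0 : A.e = 0
  v0 : ∀ u v : ℝ, lv L u v 0 = pv y0 u v
  v1 : ∀ u v : ℝ, lv L u v 1 = pv y1 u v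
  m1 : Msk y1
  c0 : (lpoly L).coeff 0 = cd y0

/-- the final conditions of a step -/
structure SVcond (S : Sta) (lam : ℕ) (V : SV) : Prop where
  lam1 : 1 ≤ lam
  x : V.x ≤ n60
  y : V.y S lam ≤ 2 ^ 58
  E1 : V.E1 S lam ≤ V.Bm S lam
  B1 : V.Bm S lam * 16 ≤ lam * 2 ^ 55
  B2 : V.Bm S lam ≤ n60
  er : V.er S ≤ 2 ^ 50
  Cb : V.Cb S ≤ 2 ^ 18
  Pb : V.Pb ≤ 2 ^ 18
  Qb : V.Qb ≤ 2 ^ 18
  lam2 : lam ≤ 2 ^ 18
  h : 0 < lo (cd V.yH) V.h.nr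

/-- what is known about the computed values -/
structure SVraw (S : Sta) (lam : ℕ) (V : SV) : Prop where
  mH : Msk V.yH
  c : LOK V.Lc S.c V.c1 V.c
  s : LOK V.Ls S.s V.s1 V.s
  k : LOK V.Lk S.k V.k1 V.k
  g : LOK V.Lg S.g V.g1 V.g
  p : LOK V.Lp S.p V.p1 V.p
  q : LOK V.Lq S.q V.q1 V.q
  h : TMP 0 V.h (dpoly V.yH) (fun u v _ => V.H u v)
  h0 : V.h.e = 0
  CC : TMP 16 V.CC V.fCC (fun u v t => V.cF u v t * V.cF u v t)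
  KK : TMP 16 V.KK V.fKK (fun u v t => V.kF u v t * V.kF u v t)
  CS : TMP 16 V.CS V.fCS (fun u v t => V.cF u v t * V.sF u v t)
  KG : TMP 16 V.KG V.fKG (fun u v t => V.kF u v t * V.gF u v t)
  CSCC : TMP 16 V.CSCC V.fCSCC
    (fun u v t => V.cF u v t * V.sF u v t * (V.cF u v t * V.cF u v t))
  KGKK : TMP 16 V.KGKK V.fKGKK
    (fun u v t => V.kF u v t * V.gF u v t * (V.kF u v t * V.kF u v t))
  P : TMP 16 V.P V.fP (fun u v t => V.H u v * V.pF u v t)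
  Q : TMP 16 V.Q V.fQ (fun u v t => V.H u v * V.qF u v t)
  sP : TMP 16 V.sP V.fsP (fun u v t => V.sF u v t * (V.H u v * V.pF u v t))
  cP : TMP 16 V.cP V.fcP (fun u v t => V.cF u v t * (V.H u v * V.pF u v t))
  gQ : TMP 16 V.gQ V.fgQ (fun u v t => V.gF u v t * (V.H u v * V.qF u v t))
  kQ : TMP 16 V.kQ V.fkQ (fun u v t => V.kF u v t * (V.H u v * V.qF u v t))
  JQ : TMP 16 V.JQ V.fJQ (fun u v t => (V.cF u v t * V.cF u v t - V.kF u v t * V.kF u v t) *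
    (V.H u v * V.qF u v t))
  JP : TMP 16 V.JP V.fJP (fun u v t => (V.cF u v t * V.cF u v t - V.kF u v t * V.kF u v t) *
    (V.H u v * V.pF u v t))
  ndc : lnorm (dlpoly V.Lc) ≤ V.ndc
  ndk : lnorm (dlpoly V.Lk) ≤ V.ndk
  ndp : lnorm (dlpoly V.Lp) ≤ V.ndp
  ndq : lnorm (dlpoly V.Lq) ≤ V.ndq
  rc : lnorm (dlpoly V.Lc - V.fsP) ≤ V.rc
  rs : lnorm (dlpoly V.Ls - V.fcP) ≤ V.rs
  rk : lnorm (dlpoly V.Lk + V.fgQ) ≤ V.rk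
  rg : lnorm (dlpoly V.Lg - V.fkQ) ≤ V.rg
  rp : lnorm (C (80 * 2 ^ 60) * dlpoly V.Lp - C (40 * 2 ^ 60) * V.fJQ -
    dpoly V.yH * (C 10 * V.fCSCC - C 61 * V.fCS + C 40 * lpoly V.Ls)) ≤ V.rp
  rq : lnorm (C (80 * 2 ^ 60) * dlpoly V.Lq + C (40 * 2 ^ 60) * V.fJP -
    dpoly V.yH * (C 10 * V.fKGKK - C 61 * V.fKG)) ≤ V.rq
  n11 : lnorm (V.fCC * (C 40 * V.fCC - C (152 * 2 ^ 60)) + C 80 * (lpoly V.Lq * V.fCS) +
    C (40 * 2 ^ 60) * lpoly V.Lc + C (61 * 2 ^ 120 + 80 * ((lam : ℤ) * lam) * 2 ^ 112)) ≤ V.n11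
  n22 : lnorm (V.fKK * (C 40 * V.fKK - C (152 * 2 ^ 60)) - C 80 * (lpoly V.Lp * V.fKG) +
    C (61 * 2 ^ 120 + 80 * ((lam : ℤ) * lam) * 2 ^ 112)) ≤ V.n22
  n12 : lnorm (lpoly V.Lq * V.fKG) ≤ V.n12
  n21 : lnorm (lpoly V.Lp * V.fCS) ≤ V.n21
  cond : SVcond S lam V

/-! ## the field in algebraic form -/

/-- field, algebraic form -/
noncomputable def Fph (c s k q : ℝ) : ℝ :=
  (c ^ 2 - k ^ 2) / 2 * q + (10 * (s * c ^ 3) - 61 * (s * c) + 40 * s) / 80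

/-- field, algebraic form -/
noncomputable def Fqh (c k g p : ℝ) : ℝ :=
  -((c ^ 2 - k ^ 2) / 2 * p) + (10 * (g * k ^ 3) - 61 * (g * k)) / 80

/-- linear coefficient -/
noncomputable def S11h (c s q : ℝ) : ℝ :=
  (40 * c ^ 4 - 152 * c ^ 2 + 40 * c + 61) / 80 + q * (c * s)

/-- linear coefficient -/
noncomputable def S22h (k g p : ℝ) : ℝ :=
  (40 * k ^ 4 - 152 * k ^ 2 + 61) / 80 - p * (k * g)

/-! ## the real step lemma -/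

/-- hypotheses of the real step lemma -/
structure RealStep (h lam eh0 et0 E0 eh et E1 Cb Pb Qb : ℝ)
    (c s k g p q c' s' k' g' p' q' : ℝ → ℝ) : Prop where
  h0 : 0 < h
  lam0 : 0 < lam
  dc : ∀ t, HasDerivAt c (c' t) t
  ds : ∀ t, HasDerivAt s (s' t) t
  dk : ∀ t, HasDerivAt k (k' t) t
  dg : ∀ t, HasDerivAt g (g' t) t
  dp : ∀ t, HasDerivAt p (p' t) t
  dq : ∀ t, HasDerivAt q (q' t) t
  neh : 0 ≤ eh0
  net : 0 ≤ et0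
  nE : 0 ≤ E0
  hx : ∃ x rh : ℝ, 0 ≤ rh ∧ 0 ≤ x ∧ x ≤ 1 ∧ (∀ t ∈ Set.Icc (0 : ℝ) 1, |h * p t| ≤ x) ∧
    (∀ t ∈ Set.Icc (0 : ℝ) 1, |c' t - s t * (h * p t)| + |s' t - c t * (h * p t)| ≤ rh) ∧
    (eh0 + rh) * (1 + x + x ^ 2) ≤ eh
  ht : ∃ rt : ℝ, 0 ≤ rt ∧
    (∀ t ∈ Set.Icc (0 : ℝ) 1, |k' t + g t * (h * q t)| + |g' t - k t * (h * q t)| ≤ rt) ∧
    et0 + rt ≤ et
  er : eh + et ≤ 1 / 1024
  bC : ∀ t ∈ Set.Icc (0 : ℝ) 1, (|c t| + eh) * (17 / 16) ≤ Cb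
  bP : ∀ t ∈ Set.Icc (0 : ℝ) 1, |p t| + 1 ≤ Pb
  bQ : ∀ t ∈ Set.Icc (0 : ℝ) 1, |q t| + 1 ≤ Qb
  C1 : Cb ≤ 2 ^ 18
  P1 : Pb ≤ 2 ^ 18
  Q1 : Qb ≤ 2 ^ 18
  hE : ∃ rho rho' m1 m2 mu B : ℝ, 0 ≤ rho' ∧ rho' < rho ∧
    (∀ t ∈ Set.Icc (0 : ℝ) 1, |p' t - h * Fph (c t) (s t) (k t) (q t)| +
      |q' t - h * Fqh (c t) (k t) (g t) (p t)| +
      h * (eh + et) * ((Cb + 1) * (Pb + Qb) + Cb ^ 3 + 2 * Cb + 3) ≤ rho') ∧
    (∀ t ∈ Set.Icc (0 : ℝ) 1, |lam ^ 2 + S11h (c t) (s t) (q t)| ≤ m1) ∧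
    (∀ t ∈ Set.Icc (0 : ℝ) 1, |lam ^ 2 + S22h (k t) (g t) (p t)| ≤ m1) ∧
    (∀ t ∈ Set.Icc (0 : ℝ) 1, |q t * (k t * g t)| ≤ m2) ∧
    (∀ t ∈ Set.Icc (0 : ℝ) 1, |p t * (c t * s t)| ≤ m2) ∧
    h * (m1 + m2) / (2 * lam) + h * (Cb ^ 2 * (Pb + Qb + 2) + Cb ^ 4) * B / lam ^ 2 +
      h * (eh + et) * (2 * Cb ^ 3 + 4 * Cb + 1 + (Pb + Qb) * (2 * Cb + 1)) / lam ≤ mu ∧
    (E0 + rho) * exp mu ≤ E1 ∧ E1 ≤ B ∧ B ≤ 1 ∧ 32 * B ≤ lam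

/-! ## the final step -/

/-- meaning of the final data, for the arrival point `y` -/
structure FinOK (F : Fnl) (tgt : ℕ) (fX fY : ℤ[X]) (u v : ℝ) (y : St) : Prop where
  x : |w60 * outX tgt y - val fX u v 0| ≤ (F.eX : ℝ)
  y : |w60 * outY tgt y - val fY u v 0| ≤ (F.eY : ℝ)

/-- the orbit `z`, which is at `z a` at the beginning of the last step, arrives -/
def Arr (tgt : ℕ) (κ' : ℝ) (z : ℝ → St) (y : St) : Prop :=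
  ∃ T : ℝ, 0 < T ∧ (∀ t, 0 < t → t < T → Inside (z t)) ∧ (∀ t, 0 ≤ t → t < T → NoSec tgt κ' (z t)) ∧
    (∀ t, 0 ≤ t → t ≤ T → Bd (z t)) ∧ z T = y ∧ Hit tgt κ' y

/-- statement of the blocks FN0 to FN3 -/
def FinSem (tgt : ℕ) (kap : ℤ) (S0 : Sta) (o : Out) (S : Sta) (F : Fnl) : Prop :=
  ∃ fX fY : ℤ[X], Rep 0 (2 ^ 69) F.X fX ∧ Rep 0 (2 ^ 69) F.Y fY ∧ fX.coeff 0 = F.x0 ∧
    fY.coeff 0 = F.y0 ∧ ∀ u v : ℝ, |u| ≤ 1 → |v| ≤ 1 → ∀ (z : ℝ → St) (a h : ℝ), ClSol z →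
    0 < a → 0 < h → (o.hlo : ℝ) ≤ w60 * h → w60 * h ≤ (o.hn : ℝ) → Good tgt (kap / w60) z a →
    StaOK S0 u v (z a) → StepOK o S u v h z a →
    ∃ y : St, Arr tgt (kap / w60) z y ∧ FinOK F tgt fX fY u v y

end Pool.Agent.Ecl
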