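import Pool.Agent.Lib_helper51.Ecl.Defs
import Pool.Agent.Lib_helper51.Ecl.Check

/-!
# Meaning of the nodes of the covering graph

`K.Node` (integers, parallelogram data in units `2^(-36)`, `kap`, `kap'` in units `2^(-60)`) is
declared in `Check.lean`.  A node is a parallelogram `|u| ≤ 1, |v| ≤ 1` on a section, together
with a target section and the list of the parallelograms (successors) on the target section.
-/

set_option autoImplicit false

namespace Pool.Agent.Ecl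

open Real

/-- `p² + q²` on the energy surface. -/
noncomputable def U2 (ξ η : ℝ) : ℝ :=
  (sinh ξ ^ 2 * cosh ξ ^ 2 + sin η ^ 2 * cos η ^ 2) / 16 + cosh ξ
    - CJ / 4 * (cosh ξ ^ 2 - cos η ^ 2)

/-- The state `x` lies on the energy surface and on the section `src` with coordinates `X, Y`.
Sections: `0`: `ξ = 0`, `p > 0`, coordinates `(cos η, q)`; `1`: `η = π`, `q < 0`; `2`: `η = 0`,
`q > 0`; `3`: `cos η = κ`, `q < 0`; for `1, 2, 3` the coordinates are `(cosh ξ, p)`.
`4`: ejection from `ζ = 0`, `p = X`, `q > 0` (`Y` is not used). -/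
def OnSec (src : ℕ) (κ X Y : ℝ) (x : St) : Prop :=
  x.p ^ 2 + x.q ^ 2 = U2 x.xi x.eta ∧
  match src with
  | 0 => x.xi = 0 ∧ 0 < x.eta ∧ x.eta < π ∧ cos x.eta = X ∧ x.q = Y ∧ 0 < x.p
  | 1 => x.eta = π ∧ 0 < x.xi ∧ cosh x.xi = X ∧ x.p = Y ∧ x.q < 0
  | 2 => x.eta = 0 ∧ 0 < x.xi ∧ cosh x.xi = X ∧ x.p = Y ∧ 0 < x.q
  | 3 => cos x.eta = κ ∧ 0 < x.eta ∧ x.eta < π ∧ 0 < x.xi ∧ cosh x.xi = X ∧ x.p = Y ∧ x.q < 0
  | _ => x.xi = 0 ∧ x.eta = 0 ∧ x.p = X ∧ 0 < x.p ∧ 0 < x.q

/-- `y` is not on the mid section `cos η = κ'`, `q ≤ 0` (only for `tgt = 3`). -/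
def NoSec (tgt : ℕ) (κ' : ℝ) (y : St) : Prop := tgt = 3 → ¬ (cos y.eta = κ' ∧ y.q ≤ 0)

/-- Arrival on the target section. `0`: `ξ = 0`, `p < 0`; `1`: `η = 0`, `q < 0`; `2`: `η = π`,
`q > 0`; `3`: `cos η = κ'`, `q < 0`. -/
def Hit (tgt : ℕ) (κ' : ℝ) (y : St) : Prop :=
  match tgt with
  | 0 => y.xi = 0 ∧ y.p < 0 ∧ 0 < y.eta ∧ y.eta < π
  | 1 => y.eta = 0 ∧ y.q < 0 ∧ 0 < y.xi
  | 2 => y.eta = π ∧ 0 < y.q ∧ 0 < y.xi
  | 3 => cos y.eta = κ' ∧ y.q < 0 ∧ Inside y
  | _ => False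

/-- The orbit of `x` stays inside and off the mid section until it arrives on the target section
at the point `y`. -/
def Fly (tgt : ℕ) (κ' : ℝ) (x y : St) : Prop :=
  ∃ (T : ℝ) (z : ℝ → St), 0 < T ∧ z 0 = x ∧ IsSol z T ∧
    (∀ t, 0 < t → t < T → Inside (z t)) ∧ (∀ t, 0 ≤ t → t < T → NoSec tgt κ' (z t)) ∧
    z T = y ∧ Hit tgt κ' y

/-- First coordinate of `y` on the target section, after the rotation. -/
noncomputable def outX (tgt : ℕ) (y : St) : ℝ := if tgt = 0 then -cos y.eta else cosh y.xi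

/-- Second coordinate of `y` on the target section, after the rotation. -/
def outY (tgt : ℕ) (y : St) : ℝ := if tgt = 0 then -y.q else y.p

/-- units of the parallelogram data -/
noncomputable def w36 : ℝ := 2 ^ 36

/-- units of `kap`, `kap'` -/
noncomputable def w60 : ℝ := 2 ^ 60

/-- The covering condition for a point with coordinates `X, Y` on the section of the
parallelogram `t`, which is the image of a point with parameter `u`: its parameters `U, V` in the
parallelogram `t` satisfy `U > 1` or `U < -1` or `|V| < 1`; for `u = -1` (`u = 1`) it is to the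
left (right) of the parallelogram, or the converse if `t.flip`. -/
def CovOK (t : K.Tgt) (u X Y : ℝ) : Prop :=
  ∃ U V : ℝ,
    X = (t.a + U * t.Ua + V * t.Va) / w36 ∧ Y = (t.b + U * t.Ub + V * t.Vb) / w36 ∧
    (1 < U ∨ U < -1 ∨ |V| < 1) ∧
    (u = -1 → if t.flip then 1 < U else U < -1) ∧
    (u = 1 → if t.flip then U < -1 else 1 < U)

/-- first coordinate of the point `(u, v)` of the parallelogram of the node -/
noncomputable def nX (n : K.Node) (u v : ℝ) : ℝ := (n.a + u * n.Ua + v * n.Va) / w36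

/-- second coordinate of the point `(u, v)` of the parallelogram of the node -/
noncomputable def nY (n : K.Node) (u v : ℝ) : ℝ := (n.b + u * n.Ub + v * n.Vb) / w36

/-- What the checker proves about a point `(u, v)` of the parallelogram of a node. -/
def PointOK (n : K.Node) (u v : ℝ) : Prop :=
  ∃ x : St, OnSec n.src (n.kap / w60) (nX n u v) (nY n u v) x ∧
    (n.tgt ≠ 4 → ∃ y : St, Fly n.tgt (n.kap' / w60) x y ∧
      ∀ t ∈ n.succ, CovOK t u (outX n.tgt y) (outY n.tgt y)) ∧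
    (n.tgt = 4 → ∃ σ : ℝ, LastArc x σ ∧
      (u = -1 → if n.flip then 0 < σ else σ < 0) ∧ (u = 1 → if n.flip then σ < 0 else 0 < σ))

/-- What the checker proves about a node. -/
def NodeOK (n : K.Node) : Prop :=
  0 < n.Ua * n.Vb - n.Ub * n.Va ∧
    (∀ t ∈ n.succ, 0 < t.Ua * t.Vb - t.Ub * t.Va) ∧
    ∀ u v : ℝ, |u| ≤ 1 → |v| ≤ 1 → PointOK n u v

end Pool.Agent.Ecl
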